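import Pool.Agent.Run7.h104.AC.Defs

/-!
# Piece SG (helper324)
-/

set_option autoImplicit false

namespace Run7.h324.AC

open Complex Set Filter Topology Metric Pool.Agent.Run7.h104.AC

theorem log_near {x : ℂ} (hx : ‖x‖ ≤ 1 / 2) : |Real.log ‖1 + x‖ - x.re| ≤ ‖x‖ ^ 2 := by
  have h := Complex.norm_log_one_add_sub_self_le (z := x) (by linarith)
  have h2 : (Complex.log (1 + x) - x).re = Real.log ‖1 + x‖ - x.re := by
    rw [sub_re, Complex.log_re]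
  have h3 := (Complex.abs_re_le_norm (Complex.log (1 + x) - x)).trans h
  rw [h2] at h3
  refine h3.trans ?_
  have h4 : (1 - ‖x‖)⁻¹ ≤ 2 := by
    rw [inv_le_comm₀ (by linarith) (by norm_num)]
    linarith
  have h5 : 0 ≤ ‖x‖ ^ 2 := sq_nonneg _
  nlinarith

theorem one_add_ne {x : ℂ} (hx : ‖x‖ ≤ 1 / 2) : 1 + x ≠ 0 := by
  intro h
  have h1 : x = -1 := by linear_combination h
  rw [h1] at hx
  norm_num at hx

theorem t_SG (htay : S_TAY) (huf : S_UF) : S_SG := by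
  intro R0 β F hU
  obtain ⟨C, δ0, hC, hδ0, hδ1, hT⟩ := htay R0 β F hU
  have hβ := hU.hβ
  set M : ℝ := |4 - 3 * β| + |2 - 2 * β| + C / β + 1 with hM
  have hCβ : 0 ≤ C / β := by positivity
  have hM1 : 1 ≤ M := by
    have := abs_nonneg (4 - 3 * β)
    have := abs_nonneg (2 - 2 * β)
    linarith
  refine ⟨5 * (C / β) + 5 * M ^ 2 + 2, min δ0 (1 / (2 * M)), by positivity,
    lt_min hδ0 (by positivity), ?_⟩
  intro z hz0 hz
  have hzδ : ‖z‖ < δ0 := hz.trans_le (min_le_left _ _)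
  have hzM : ‖z‖ < 1 / (2 * M) := hz.trans_le (min_le_right _ _)
  have hz2 : M * ‖z‖ ≤ 1 / 2 := by
    have h1 : M * ‖z‖ ≤ M * (1 / (2 * M)) := mul_le_mul_of_nonneg_left hzM.le (by linarith)
    have h2 : M * (1 / (2 * M)) = 1 / 2 := by
      field_simp
    linarith
  have hn0 : 0 < ‖z‖ := norm_pos_iff.2 hz0
  have hzhalf : ‖z‖ ≤ 1 / 2 := by nlinarith
  obtain ⟨-, hF', t, ht, hCd, ht2⟩ := hT z hzδ
  have hβc : (β : ℂ) ≠ 0 := by exact_mod_cast hβ.ne'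
  have hβn : ‖(β : ℂ)‖ = β := by
    rw [Complex.norm_real, Real.norm_of_nonneg hβ.le]
  -- the two quotients
  set e1 : ℂ := (deriv F z - (β + 2 * (β * (2 - 3 * β / 2)) * z)) / β with he1
  set e2 : ℂ := (t - (β * z + (2 * β - 2 * β ^ 2) * z ^ 2)) / (β * z) with he2
  set xa : ℂ := (4 - 3 * β) * z + e1 with hxa
  set xb : ℂ := (2 - 2 * β) * z + e2 with hxb
  have he1n : ‖e1‖ ≤ C / β * ‖z‖ ^ 2 := by
    rw [he1, norm_div, hβn, div_mul_eq_mul_div]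
    exact div_le_div_of_nonneg_right hF' hβ.le
  have he2n : ‖e2‖ ≤ C / β * ‖z‖ ^ 2 := by
    rw [he2, norm_div, norm_mul, hβn, div_le_iff₀ (by positivity)]
    refine ht2.trans_eq ?_
    field_simp
  have hFa : deriv F z = β * (1 + xa) := by
    rw [hxa, he1]
    field_simp
    ring
  have htb : t = β * z * (1 + xb) := by
    rw [hxb, he2]
    field_simp
    ring
  have hzz : ‖z‖ ^ 2 ≤ ‖z‖ := by nlinarith
  have hxan : ‖xa‖ ≤ M * ‖z‖ := by
    have h1 : ‖xa‖ ≤ |4 - 3 * β| * ‖z‖ + C / β * ‖z‖ ^ 2 := by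
      refine (norm_add_le _ _).trans (add_le_add ?_ he1n)
      rw [norm_mul]
      refine le_of_eq ?_
      congr 1
      have : (4 - 3 * (β : ℂ)) = ((4 - 3 * β : ℝ) : ℂ) := by push_cast; ring
      rw [this, Complex.norm_real, Real.norm_eq_abs]
    have h2 : C / β * ‖z‖ ^ 2 ≤ C / β * ‖z‖ := mul_le_mul_of_nonneg_left hzz hCβ
    have h3 := abs_nonneg (2 - 2 * β)
    have h4 : M * ‖z‖ = |4 - 3 * β| * ‖z‖ + |2 - 2 * β| * ‖z‖ + C / β * ‖z‖ + ‖z‖ := by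
      rw [hM]; ring
    have h5 : 0 ≤ |2 - 2 * β| * ‖z‖ := by positivity
    linarith
  have hxbn : ‖xb‖ ≤ M * ‖z‖ := by
    have h1 : ‖xb‖ ≤ |2 - 2 * β| * ‖z‖ + C / β * ‖z‖ ^ 2 := by
      refine (norm_add_le _ _).trans (add_le_add ?_ he2n)
      rw [norm_mul]
      refine le_of_eq ?_
      congr 1
      have : (2 - 2 * (β : ℂ)) = ((2 - 2 * β : ℝ) : ℂ) := by push_cast; ring
      rw [this, Complex.norm_real, Real.norm_eq_abs]
    have h2 : C / β * ‖z‖ ^ 2 ≤ C / β * ‖z‖ := mul_le_mul_of_nonneg_left hzz hCβ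
    have h3 := abs_nonneg (4 - 3 * β)
    have h4 : M * ‖z‖ = |4 - 3 * β| * ‖z‖ + |2 - 2 * β| * ‖z‖ + C / β * ‖z‖ + ‖z‖ := by
      rw [hM]; ring
    have h5 : 0 ≤ |4 - 3 * β| * ‖z‖ := by positivity
    linarith
  have hxa2 : ‖xa‖ ≤ 1 / 2 := hxan.trans hz2
  have hxb2 : ‖xb‖ ≤ 1 / 2 := hxbn.trans hz2
  have ht0 : t ≠ 0 := by
    rw [htb]
    exact mul_ne_zero (mul_ne_zero hβc hz0) (one_add_ne hxb2)
  -- the potential
  have htn : 3 / 2 ≤ ‖t + 2‖ := by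
    have h1 : ‖(2 : ℂ)‖ ≤ ‖t + 2‖ + ‖t‖ := by
      have : (2 : ℂ) = (t + 2) - t := by ring
      calc ‖(2 : ℂ)‖ = ‖(t + 2) - t‖ := by rw [← this]
        _ ≤ _ := norm_sub_le _ _
    have h2 : ‖(2 : ℂ)‖ = 2 := by norm_num
    linarith
  have hUz : U (F z) = Real.log ‖t + 2‖ - Real.log 2 := by
    rw [← hCd, huf.1 t (by linarith)]
    have : Real.posLog ‖t‖ = 0 := by
      rw [Real.posLog_eq_zero_iff]
      rw [abs_of_nonneg (norm_nonneg _)]
      linarith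
    rw [this, zero_add]
  have hFz : Real.log ‖F z‖ = Real.log ‖t‖ + Real.log ‖t + 2‖ - Real.log 2 := by
    have e : F z = t * (t + 2) / 2 := by
      rw [← hCd, Cd]; ring
    have h2 : ‖(2 : ℂ)‖ = 2 := by norm_num
    rw [e, norm_div, norm_mul, h2, Real.log_div (by
      refine mul_ne_zero (norm_ne_zero_iff.2 ht0) ?_
      linarith) (by norm_num), Real.log_mul (norm_ne_zero_iff.2 ht0) (by linarith)]
  have hlt : Real.log ‖t‖ = Real.log β + Real.log ‖z‖ + Real.log ‖1 + xb‖ := by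
    rw [htb, norm_mul, norm_mul, hβn, Real.log_mul (by positivity)
      (norm_ne_zero_iff.2 (one_add_ne hxb2)), Real.log_mul hβ.ne' hn0.ne']
  have hlF : Real.log ‖deriv F z‖ = Real.log β + Real.log ‖1 + xa‖ := by
    rw [hFa, norm_mul, hβn, Real.log_mul hβ.ne' (norm_ne_zero_iff.2 (one_add_ne hxa2))]
  have hsig : sig β F z = 2 * Real.log ‖1 + xa‖ - 3 * Real.log ‖1 + xb‖ -
      2 * Real.log ‖1 + z‖ := by
    unfold sig har
    rw [hUz, hFz, hlt, hlF]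
    ring
  have la := log_near hxa2
  have lb := log_near hxb2
  have lz := log_near hzhalf
  have hre : 2 * xa.re - 3 * xb.re - 2 * z.re = (2 * e1 - 3 * e2).re := by
    have h1 : 2 * xa - 3 * xb - 2 * z = 2 * e1 - 3 * e2 := by
      rw [hxa, hxb]; ring
    rw [← h1]
    simp
  have hre2 : |(2 * e1 - 3 * e2).re| ≤ 5 * (C / β) * ‖z‖ ^ 2 := by
    refine (Complex.abs_re_le_norm _).trans ((norm_sub_le _ _).trans ?_)
    rw [norm_mul, norm_mul]
    have h2 : ‖(2 : ℂ)‖ = 2 := by norm_num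
    have h3 : ‖(3 : ℂ)‖ = 3 := by norm_num
    rw [h2, h3]
    linarith
  have qa : ‖xa‖ ^ 2 ≤ M ^ 2 * ‖z‖ ^ 2 := by
    rw [← mul_pow]; exact pow_le_pow_left₀ (norm_nonneg _) hxan 2
  have qb : ‖xb‖ ^ 2 ≤ M ^ 2 * ‖z‖ ^ 2 := by
    rw [← mul_pow]; exact pow_le_pow_left₀ (norm_nonneg _) hxbn 2
  rw [hsig]
  rw [abs_le] at la lb lz hre2 ⊢
  constructor <;> nlinarith [la.1, la.2, lb.1, lb.2, lz.1, lz.2, hre2.1, hre2.2, hre]

end Run7.h324.AC
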